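import Pool.Agent.H20.ER3.Lib

/-!
# Exactly two corners of a triangle in `R`
-/

set_option autoImplicit false

open Pool.Agent.H48.ER Pool.Agent.H52.ER2 Pool.Agent.H66.ER2 Pool.Agent.H20.ER3

namespace Pool.Agent.H54.ER3

/-- the part in `R` of a rung whose last vertex is the only one outside of `R` -/
theorem c3_rung {V : Type} {H : SimpleGraph V} {R : Set V} {n : Fin 3 → ℕ}
    {g : Fin 3 → ℕ → V ⊕ Set V} (hp : PI (MG H R) n g) (i : Fin 3) (hn : 1 ≤ n i)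
    (hR : ∀ x, x < n i → InR R (g i x)) :
    ∃ F : Set V, F ⊆ R ∧ Cn H F ∧ (∀ v ∈ F, ∃ x, x < n i ∧ g i x = Sum.inl v) ∧
      ∀ x, x < n i → ∃ v ∈ F, g i x = Sum.inl v := by
  classical
  have hex : ∀ x, ∃ v : V, x < n i → v ∈ R ∧ g i x = Sum.inl v := by
    intro x
    by_cases hx : x < n i
    · obtain ⟨r, hr, e⟩ := hR x hx
      exact ⟨r, fun _ => ⟨hr, e⟩⟩
    · obtain ⟨r, hr, e⟩ := hR 0 (by omega)
      exact ⟨r, fun h => absurd h hx⟩
  choose f hf using hex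
  refine ⟨{v | ∃ x, x ≤ n i - 1 ∧ f x = v}, ?_, ?_, ?_, ?_⟩
  · rintro v ⟨x, hx, rfl⟩
    exact (hf x (by omega)).1
  · refine ip_cn (n := n i - 1) (x := f 0) (y := f (n i - 1)) ⟨f, rfl, rfl, ?_, ?_, rfl⟩
    · intro a b ha hb e
      have ea := (hf a (by omega)).2
      have eb := (hf b (by omega)).2
      rw [e] at ea
      exact (hp.inj i i a b (by omega) (by omega) (ea.trans eb.symm)).2
    · intro a b ha hb
      have ea := (hf a (by omega)).2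
      have eb := (hf b (by omega)).2
      rw [← mg_ll (G := H) (R := R), ← ea, ← eb, hp.adj i i a b (by omega) (by omega)]
      constructor
      · rintro (⟨_, h⟩ | ⟨h, _⟩)
        · exact h
        · exact absurd rfl h
      · intro h
        exact Or.inl ⟨rfl, h⟩
  · rintro v ⟨x, hx, rfl⟩
    exact ⟨x, by omega, (hf x (by omega)).2⟩
  · intro x hx
    exact ⟨f x, ⟨x, by omega, rfl⟩, (hf x hx).2⟩

theorem pf_C3 (hPX : U_PX) (hGE : U_GE) : U_C3 := by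
  intro V H R n g l hE hA hp hodd hl
  by_contra hno
  obtain ⟨a1, a2, a3, a4⟩ := hl 0 (by decide)
  obtain ⟨b1, b2, b3, b4⟩ := hl 1 (by decide)
  have hn2 : 1 ≤ n 2 := hp.pos 2
  have key : ∀ i : Fin 3, i ≠ 2 → Even (l i + 1) := by
    intro i hi
    obtain ⟨c1, c2, c3, c4⟩ := hl i hi
    have hip := hPX _ (MG H R) n g i 2 (l i) 0 hp hi c2 (by omega) (by omega)
    have h1 := hGE V H R (l i + 1 + 0) (g i (l i)) (g 2 0) _ hE hip (by omega) c4 hno ?_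
    · simpa using h1
    · rintro w (⟨k, _, hk, rfl⟩ | ⟨k, _, hk, rfl⟩)
      · by_cases hkl : k = l i
        · left; rw [hkl]
        · right; right
          exact c3 k (by omega)
      · have : k = 0 := by omega
        subst this
        right; left; rfl
  have e0 := key 0 (by decide)
  have e1 := key 1 (by decide)
  have hends : l 0 = n 0 ∧ l 1 = n 1 := by
    by_contra hne
    have hip := hPX _ (MG H R) n g 0 1 (l 0) (l 1) hp (by decide) a2 b2 hne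
    have h1 := hGE V H R (l 0 + 1 + l 1) (g 0 (l 0)) (g 1 (l 1)) _ hE hip (by omega) a4 b4 ?_
    · rw [Nat.even_iff] at h1 e0 e1
      omega
    · rintro w (⟨k, _, hk, rfl⟩ | ⟨k, _, hk, rfl⟩)
      · by_cases hkl : k = l 0
        · left; rw [hkl]
        · right; right
          exact a3 k (by omega)
      · by_cases hkl : k = l 1
        · right; left; rw [hkl]
        · right; right
          exact b3 k (by omega)
  obtain ⟨hl0, hl1⟩ := hends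
  rw [hl0] at a1 a3 a4
  rw [hl1] at b1 b3 b4
  obtain ⟨F1, f1R, f1C, f1a, f1b⟩ := c3_rung hp 0 a1 a3
  obtain ⟨F2, f2R, f2C, f2a, f2b⟩ := c3_rung hp 1 b1 b3
  -- the three vertices are vertices of the graph
  have hreal : ∀ (i j : Fin 3) (k m : ℕ), (MG H R).Adj (g i k) (g j m) → InR R (g i k) →
      ¬ InR R (g j m) → ∃ c : V, g j m = Sum.inl c ∧ c ∉ R := by
    intro i j k m hadj hin hout
    obtain ⟨r, hr, e⟩ := hin
    rw [e] at hadj
    obtain ⟨c, hc, _⟩ := inR_adj hr hadj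
    refine ⟨c, hc, fun hcR => hout ?_⟩
    rw [hc]
    exact InR.inl_iff.2 hcR
  obtain ⟨c2, hc2, hc2R⟩ := hreal 0 0 (n 0 - 1) (n 0)
    ((hp.adj 0 0 _ _ (by omega) le_rfl).2 (Or.inl ⟨rfl, Or.inl (by omega)⟩))
    (a3 _ (by omega)) a4
  obtain ⟨c3, hc3, hc3R⟩ := hreal 1 1 (n 1 - 1) (n 1)
    ((hp.adj 1 1 _ _ (by omega) le_rfl).2 (Or.inl ⟨rfl, Or.inl (by omega)⟩))
    (b3 _ (by omega)) b4
  obtain ⟨c1, hc1, hc1R⟩ := hreal 0 2 0 0
    ((hp.adj 0 2 0 0 (by omega) (by omega)).2 (Or.inr ⟨by decide, Or.inl ⟨rfl, rfl⟩⟩))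
    (a3 0 (by omega)) hno
  -- adjacency with the sets
  have sees : ∀ (F : Set V) (i j : Fin 3) (m : ℕ) (c : V), m ≤ n j → 1 ≤ n i → F ⊆ R → Cn H F →
      (∀ x, x < n i → ∃ v ∈ F, g i x = Sum.inl v) → g j m = Sum.inl c → c ∉ R →
      (∃ x, x < n i ∧ (MG H R).Adj (g i x) (g j m)) → Sees H R F c := by
    intro F i j m c _ _ hFR hFC hF hc hcR ⟨x, hx, hadj⟩
    obtain ⟨v, hv, e⟩ := hF x hx
    rw [e, hc, mg_ll] at hadj
    exact ⟨hcR, hFR, hFC, v, hv, hadj.symm⟩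
  have nsees : ∀ (F : Set V) (i j : Fin 3) (c : V), i ≠ j → 1 ≤ n i → 1 ≤ n j →
      (∀ v ∈ F, ∃ x, x < n i ∧ g i x = Sum.inl v) → g j (n j) = Sum.inl c →
      ¬ Sees H R F c := by
    rintro F i j c hij hi hj hF hc ⟨_, _, _, v, hv, hadj⟩
    obtain ⟨x, hx, e⟩ := hF v hv
    rw [← mg_ll (G := H) (R := R), ← hc, ← e, hp.adj j i _ _ le_rfl (by omega)] at hadj
    rcases hadj with ⟨h, _⟩ | ⟨_, ⟨h, _⟩ | ⟨_, h⟩⟩
    · exact hij h.symm
    · omega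
    · omega
  refine hA c1 c2 c3 F1 F2 ?_ ?_ ?_ ?_ ?_ ?_ hc3R ?_ ?_ ?_
  · rw [← mg_ll (G := H) (R := R), ← hc2, ← hc3, hp.adj 0 1 _ _ le_rfl le_rfl]
    exact Or.inr ⟨by decide, Or.inr ⟨rfl, rfl⟩⟩
  · rw [← mg_ll (G := H) (R := R), ← hc1, ← hc2, hp.adj 2 0 _ _ (by omega) le_rfl]
    rintro (⟨h, _⟩ | ⟨_, ⟨_, h⟩ | ⟨h, _⟩⟩)
    · exact absurd h (by decide)
    · omega
    · omega
  · rw [← mg_ll (G := H) (R := R), ← hc1, ← hc3, hp.adj 2 1 _ _ (by omega) le_rfl]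
    rintro (⟨h, _⟩ | ⟨_, ⟨_, h⟩ | ⟨h, _⟩⟩)
    · exact absurd h (by decide)
    · omega
    · omega
  · exact sees F1 0 2 0 c1 (by omega) a1 f1R f1C f1b hc1 hc1R
      ⟨0, by omega, (hp.adj 0 2 0 0 (by omega) (by omega)).2
        (Or.inr ⟨by decide, Or.inl ⟨rfl, rfl⟩⟩)⟩
  · exact sees F1 0 0 (n 0) c2 le_rfl a1 f1R f1C f1b hc2 hc2R
      ⟨n 0 - 1, by omega, (hp.adj 0 0 _ _ (by omega) le_rfl).2
        (Or.inl ⟨rfl, Or.inl (by omega)⟩)⟩
  · exact nsees F1 0 1 c3 (by decide) a1 b1 f1a hc3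
  · exact sees F2 1 2 0 c1 (by omega) b1 f2R f2C f2b hc1 hc1R
      ⟨0, by omega, (hp.adj 1 2 0 0 (by omega) (by omega)).2
        (Or.inr ⟨by decide, Or.inl ⟨rfl, rfl⟩⟩)⟩
  · exact sees F2 1 1 (n 1) c3 le_rfl b1 f2R f2C f2b hc3 hc3R
      ⟨n 1 - 1, by omega, (hp.adj 1 1 _ _ (by omega) le_rfl).2
        (Or.inl ⟨rfl, Or.inl (by omega)⟩)⟩
  · exact nsees F2 1 0 c2 (by decide) b1 a1 f2a hc2

end Pool.Agent.H54.ER3
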